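import Pool.Agent.Helper40.MR.Defs

/-!
Module WV: iterated van der Corput inequality.
-/

open Finset MeasureTheory
open scoped BigOperators Nat ComplexConjugate

namespace Pool.Agent.Helper40.MR

theorem wv_ee_norm (x : ℝ) : ‖ee x‖ = 1 := by
  unfold ee
  exact Complex.norm_exp_ofReal_mul_I _

theorem wv_ee_sub (x y : ℝ) : ee (x - y) = ee x * conj (ee y) := by
  unfold ee
  rw [← Complex.exp_conj, ← Complex.exp_add]
  congr 1
  rw [map_mul, Complex.conj_ofReal, Complex.conj_I]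
  push_cast
  ring

theorem wv_dl (hs : List ℕ) (F : ℕ → ℝ) (h n : ℕ) :
    dl hs (fun n => F (n + h) - F n) n = dl hs F (n + h) - dl hs F n := by
  induction hs generalizing n with
  | nil => rfl
  | cons g gs ih =>
    show dl gs (fun n => F (n + h) - F n) (n + g) - dl gs (fun n => F (n + h) - F n) n =
      (dl gs F (n + h + g) - dl gs F (n + h)) - (dl gs F (n + g) - dl gs F n)
    rw [ih, ih, show n + g + h = n + h + g by ring]
    ring

/-- Correlation sum. -/
theorem wv_corr (z : ℕ → ℂ) (a b j h : ℕ) :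
    ∑ n ∈ Ioc a b, ∑ n' ∈ Ioc a b, (if n + j = n' + (j + h) then z n * conj (z n') else 0) =
      ∑ n ∈ Ioc a (b - h), z (n + h) * conj (z n) := by
  rw [sum_comm]
  have h1 : ∀ n' ∈ Ioc a b, ∑ n ∈ Ioc a b,
      (if n + j = n' + (j + h) then z n * conj (z n') else 0) =
      if n' ∈ Ioc a (b - h) then z (n' + h) * conj (z n') else 0 := by
    intro n' hn'
    rw [mem_Ioc] at hn'
    by_cases hm : n' ∈ Ioc a (b - h)
    · rw [if_pos hm, mem_Ioc] at *
      rw [sum_eq_single (n' + h)]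
      · rw [if_pos (by ring)]
      · intro n _ hne
        rw [if_neg]
        intro hh
        exact hne (by omega)
      · intro hh
        exfalso
        apply hh
        rw [mem_Ioc]
        omega
    · rw [if_neg hm]
      apply sum_eq_zero
      intro n hn
      rw [mem_Ioc] at hn hm
      rw [if_neg]
      intro hh
      apply hm
      omega
  rw [sum_congr rfl h1, ← sum_filter]
  apply sum_congr _ (fun _ _ => rfl)
  ext n
  simp only [mem_filter, mem_Ioc]
  omega

/-- Absolute value of the correlation. -/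
noncomputable def wvG (z : ℕ → ℂ) (a b h : ℕ) : ℝ :=
  ‖∑ n ∈ Ioc a (b - h), z (n + h) * conj (z n)‖

theorem wvG_nonneg (z : ℕ → ℂ) (a b h : ℕ) : 0 ≤ wvG z a b h := norm_nonneg _

theorem wv_pair (z : ℕ → ℂ) (a b j j' : ℕ) :
    ‖∑ n ∈ Ioc a b, ∑ n' ∈ Ioc a b, (if n + j = n' + j' then z n * conj (z n') else 0)‖ ≤
      wvG z a b (j' - j) * (if j ≤ j' then 1 else 0) +
      wvG z a b (j - j') * (if j' ≤ j then 1 else 0) := by
  rcases le_total j j' with hle | hle
  · obtain ⟨h, rfl⟩ := Nat.exists_eq_add_of_le hle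
    rw [wv_corr, if_pos hle, Nat.add_sub_cancel_left, mul_one]
    have : 0 ≤ wvG z a b (j - (j + h)) * (if j + h ≤ j then (1 : ℝ) else 0) :=
      mul_nonneg (wvG_nonneg _ _ _ _) (by split_ifs <;> norm_num)
    have h2 : ‖∑ n ∈ Ioc a (b - h), z (n + h) * conj (z n)‖ = wvG z a b h := rfl
    linarith
  · obtain ⟨h, rfl⟩ := Nat.exists_eq_add_of_le hle
    have h1 : ∑ n ∈ Ioc a b, ∑ n' ∈ Ioc a b,
        (if n + (j' + h) = n' + j' then z n * conj (z n') else 0) =
        conj (∑ n ∈ Ioc a b, ∑ n' ∈ Ioc a b,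
          (if n + j' = n' + (j' + h) then z n * conj (z n') else 0)) := by
      rw [map_sum, sum_comm]
      apply sum_congr rfl
      intro n _
      rw [map_sum]
      apply sum_congr rfl
      intro n' _
      by_cases hh : n' + (j' + h) = n + j'
      · rw [if_pos hh, if_pos hh.symm, map_mul, Complex.conj_conj, mul_comm]
      · rw [if_neg hh, if_neg (fun e => hh e.symm), map_zero]
    rw [h1, RCLike.norm_conj, wv_corr, if_pos hle, Nat.add_sub_cancel_left, mul_one]
    have : 0 ≤ wvG z a b (j' - (j' + h)) * (if j' + h ≤ j' then (1 : ℝ) else 0) :=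
      mul_nonneg (wvG_nonneg _ _ _ _) (by split_ifs <;> norm_num)
    have h2 : ‖∑ n ∈ Ioc a (b - h), z (n + h) * conj (z n)‖ = wvG z a b h := rfl
    linarith

theorem wv_row (G : ℕ → ℝ) (hG : ∀ h, 0 ≤ G h) (H j : ℕ) (hj : j < H) :
    ∑ j' ∈ range H, (G (j' - j) * (if j ≤ j' then 1 else 0) +
      G (j - j') * (if j' ≤ j then 1 else 0)) ≤ 2 * G 0 + 2 * ∑ h ∈ Icc 1 H, G h := by
  have hsum : ∑ h ∈ range (H + 1), G h = G 0 + ∑ h ∈ Icc 1 H, G h := by
    rw [sum_range_succ', add_comm]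
    congr 1
    rw [← Finset.sum_image (f := G) (s := range H) (g := fun i => i + 1)
      (fun x _ y _ e => by simpa using e)]
    apply sum_congr _ (fun _ _ => rfl)
    ext x
    simp only [mem_image, mem_range, mem_Icc]
    constructor
    · rintro ⟨y, hy, rfl⟩; omega
    · rintro ⟨h1, h2⟩; exact ⟨x - 1, by omega, by omega⟩
  rw [sum_add_distrib]
  have e1 : ∑ j' ∈ range H, G (j' - j) * (if j ≤ j' then 1 else 0) ≤
      ∑ h ∈ range (H + 1), G h := by
    have : ∑ j' ∈ range H, G (j' - j) * (if j ≤ j' then 1 else 0) =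
        ∑ j' ∈ (range H).filter (fun j' => j ≤ j'), G (j' - j) := by
      rw [sum_filter]
      apply sum_congr rfl
      intro x _
      split_ifs <;> simp
    rw [this, ← Finset.sum_image (f := G) (s := (range H).filter (fun j' => j ≤ j'))
      (g := fun j' => j' - j)]
    · apply sum_le_sum_of_subset_of_nonneg
      · intro x hx
        simp only [mem_image, mem_filter, mem_range] at hx ⊢
        omega
      · intro _ _ _; exact hG _
    · intro x hx y hy e
      simp only [coe_filter, mem_range, Set.mem_ofPred_eq] at hx hy e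
      omega
  have e2 : ∑ j' ∈ range H, G (j - j') * (if j' ≤ j then 1 else 0) ≤
      ∑ h ∈ range (H + 1), G h := by
    have : ∑ j' ∈ range H, G (j - j') * (if j' ≤ j then 1 else 0) =
        ∑ j' ∈ (range H).filter (fun j' => j' ≤ j), G (j - j') := by
      rw [sum_filter]
      apply sum_congr rfl
      intro x _
      split_ifs <;> simp
    rw [this, ← Finset.sum_image (f := G) (s := (range H).filter (fun j' => j' ≤ j))
      (g := fun j' => j - j')]
    · apply sum_le_sum_of_subset_of_nonneg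
      · intro x hx
        simp only [mem_image, mem_filter, mem_range] at hx ⊢
        omega
      · intro _ _ _; exact hG _
    · intro x hx y hy e
      simp only [coe_filter, mem_range, Set.mem_ofPred_eq] at hx hy e
      omega
  rw [hsum] at e1 e2
  linarith

/-- Basic van der Corput inequality. -/
theorem wv_basic (z : ℕ → ℂ) (hz : ∀ n, ‖z n‖ = 1) (a b H : ℕ) (M : ℝ) (hab : a ≤ b)
    (hM : ((b : ℝ) - a) ≤ M) (hH : 1 ≤ H) (hHM : (H : ℝ) ≤ M) :
    ‖∑ n ∈ Ioc a b, z n‖ ^ 2 ≤ 4 * M / H * (M + ∑ h ∈ Icc 1 H, wvG z a b h) := by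
  classical
  have hH0 : (0 : ℝ) < H := by exact_mod_cast hH
  have hM0 : 0 < M := by linarith
  set c : ℕ → ℂ := fun m => ∑ j ∈ range H, ∑ n ∈ Ioc a b, (if n + j = m then z n else 0) with hc
  have hS : (H : ℂ) * ∑ n ∈ Ioc a b, z n = ∑ m ∈ Ioc a (b + H), c m := by
    rw [hc, sum_comm]
    have : ∀ j ∈ range H, ∑ m ∈ Ioc a (b + H), ∑ n ∈ Ioc a b, (if n + j = m then z n else 0) =
        ∑ n ∈ Ioc a b, z n := by
      intro j hj
      rw [sum_comm]
      apply sum_congr rfl
      intro n hn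
      rw [sum_ite_eq, if_pos]
      rw [mem_range] at hj
      rw [mem_Ioc] at hn ⊢
      omega
    rw [sum_congr rfl this, sum_const, card_range, nsmul_eq_mul]
  have hcard : ((Ioc a (b + H)).card : ℝ) ≤ 2 * M := by
    rw [Nat.card_Ioc, Nat.cast_sub (by omega)]
    push_cast
    linarith
  have hCS : ‖∑ m ∈ Ioc a (b + H), c m‖ ^ 2 ≤ (2 * M) * ∑ m ∈ Ioc a (b + H), ‖c m‖ ^ 2 := by
    calc ‖∑ m ∈ Ioc a (b + H), c m‖ ^ 2 ≤ (∑ m ∈ Ioc a (b + H), ‖c m‖) ^ 2 := by
          gcongr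
          exact norm_sum_le _ _
      _ ≤ (Ioc a (b + H)).card * ∑ m ∈ Ioc a (b + H), ‖c m‖ ^ 2 := sq_sum_le_card_mul_sum_sq
      _ ≤ _ := by
          gcongr
  have hexp : ((∑ m ∈ Ioc a (b + H), ‖c m‖ ^ 2 : ℝ) : ℂ) = ∑ j ∈ range H, ∑ j' ∈ range H,
      ∑ n ∈ Ioc a b, ∑ n' ∈ Ioc a b, (if n + j = n' + j' then z n * conj (z n') else 0) := by
    push_cast
    have h1 : ∀ m ∈ Ioc a (b + H), (‖c m‖ : ℂ) ^ 2 = ∑ j ∈ range H, ∑ j' ∈ range H,
        ∑ n ∈ Ioc a b, ∑ n' ∈ Ioc a b,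
          (if n + j = m then z n else 0) * conj (if n' + j' = m then z n' else 0) := by
      intro m _
      rw [← Complex.mul_conj', hc]
      simp only [map_sum]
      rw [sum_mul_sum]
      apply sum_congr rfl; intro j _
      apply sum_congr rfl; intro j' _
      rw [sum_mul_sum]
    rw [sum_congr rfl h1, sum_comm]
    apply sum_congr rfl; intro j hj
    rw [sum_comm]
    apply sum_congr rfl; intro j' hj'
    rw [sum_comm]
    apply sum_congr rfl; intro n hn
    rw [sum_comm]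
    apply sum_congr rfl; intro n' hn'
    rw [sum_eq_single (n + j)]
    · rw [if_pos rfl]
      by_cases hh : n + j = n' + j'
      · rw [if_pos hh, if_pos hh.symm]
      · rw [if_neg hh, if_neg (fun e => hh e.symm), map_zero, mul_zero]
    · intro m _ hne
      rw [if_neg (fun e => hne e.symm), zero_mul]
    · intro hh
      exfalso; apply hh
      rw [mem_range] at hj
      rw [mem_Ioc] at hn ⊢
      omega
  have hG0 : wvG z a b 0 ≤ M := by
    unfold wvG
    refine (norm_sum_le _ _).trans ?_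
    have : ∀ n ∈ Ioc a (b - 0), ‖z (n + 0) * conj (z n)‖ = 1 := by
      intro n _
      rw [norm_mul, RCLike.norm_conj, hz, hz, mul_one]
    rw [sum_congr rfl this, sum_const, Nat.card_Ioc, nsmul_eq_mul, mul_one, Nat.sub_zero,
      Nat.cast_sub hab]
    exact hM
  have hsq : ∑ m ∈ Ioc a (b + H), ‖c m‖ ^ 2 ≤
      H * (2 * M + 2 * ∑ h ∈ Icc 1 H, wvG z a b h) := by
    have h0 : 0 ≤ ∑ m ∈ Ioc a (b + H), ‖c m‖ ^ 2 := sum_nonneg fun _ _ => by positivity
    have : ∑ m ∈ Ioc a (b + H), ‖c m‖ ^ 2 = ‖((∑ m ∈ Ioc a (b + H), ‖c m‖ ^ 2 : ℝ) : ℂ)‖ := by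
      rw [Complex.norm_real, Real.norm_of_nonneg h0]
    rw [this, hexp]
    refine (norm_sum_le _ _).trans ?_
    have h2 : ∀ j ∈ range H, ‖∑ j' ∈ range H, ∑ n ∈ Ioc a b, ∑ n' ∈ Ioc a b,
        (if n + j = n' + j' then z n * conj (z n') else 0)‖ ≤
        2 * M + 2 * ∑ h ∈ Icc 1 H, wvG z a b h := by
      intro j hj
      refine (norm_sum_le _ _).trans ?_
      refine (sum_le_sum fun j' _ => wv_pair z a b j j').trans ?_
      refine (wv_row (wvG z a b) (wvG_nonneg z a b) H j (mem_range.1 hj)).trans ?_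
      linarith
    refine (sum_le_sum h2).trans ?_
    rw [sum_const, card_range, nsmul_eq_mul]
  have hfin : (H : ℝ) ^ 2 * ‖∑ n ∈ Ioc a b, z n‖ ^ 2 ≤
      (2 * M) * (H * (2 * M + 2 * ∑ h ∈ Icc 1 H, wvG z a b h)) := by
    calc (H : ℝ) ^ 2 * ‖∑ n ∈ Ioc a b, z n‖ ^ 2 = ‖(H : ℂ) * ∑ n ∈ Ioc a b, z n‖ ^ 2 := by
          rw [norm_mul, Complex.norm_natCast, mul_pow]
      _ ≤ (2 * M) * ∑ m ∈ Ioc a (b + H), ‖c m‖ ^ 2 := by rw [hS]; exact hCS
      _ ≤ _ := by gcongr
  have h3 : 4 * M / H * (M + ∑ h ∈ Icc 1 H, wvG z a b h) =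
      (2 * M) * (H * (2 * M + 2 * ∑ h ∈ Icc 1 H, wvG z a b h)) / (H : ℝ) ^ 2 := by
    field_simp
    ring
  rw [h3, le_div_iff₀ (by positivity), mul_comm]
  exact hfin

theorem wv_pi {k : ℕ} (s : Finset ℕ) (B : (Fin (k + 1) → ℕ) → ℝ) :
    ∑ h ∈ Fintype.piFinset (fun _ : Fin (k + 1) => s), B h =
      ∑ g ∈ s, ∑ h ∈ Fintype.piFinset (fun _ : Fin k => s), B (Fin.cons g h) := by
  rw [← sum_product' (f := fun g h => B (Fin.cons g h))]
  refine sum_nbij' (fun h => (h 0, Fin.tail h)) (fun p => Fin.cons p.1 p.2) ?_ ?_ ?_ ?_ ?_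
  · intro h hh
    rw [Fintype.mem_piFinset] at hh
    rw [mem_product, Fintype.mem_piFinset]
    exact ⟨hh 0, fun i => hh i.succ⟩
  · intro p hp
    rw [mem_product, Fintype.mem_piFinset] at hp
    rw [Fintype.mem_piFinset]
    intro i
    refine Fin.cases ?_ (fun i => ?_) i
    · exact hp.1
    · exact hp.2 i
  · intro h _
    exact Fin.cons_self_tail h
  · intro p _
    rfl
  · intro h _
    show B h = B (Fin.cons (h 0) (Fin.tail h))
    rw [Fin.cons_self_tail]

theorem st_WV : ST_WV := by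
  intro k
  induction k with
  | zero =>
    refine ⟨1, one_pos, fun F a b H M B hab hM hH hHM hB hyp => ?_⟩
    have hM0 : 0 < M := lt_of_lt_of_le (by exact_mod_cast hH) hHM
    have h1 := hyp (fun i => i.elim0) (fun i => i.elim0) a b le_rfl hab le_rfl
    have h2 : ∑ h ∈ Fintype.piFinset (fun _ : Fin 0 => Icc 1 H), B h =
        B (fun i => i.elim0) := by
      rw [sum_eq_single (fun i : Fin 0 => i.elim0)]
      · intro h _ hne
        exact absurd (Subsingleton.elim _ _) hne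
      · intro hh
        exfalso; apply hh
        rw [Fintype.mem_piFinset]
        exact fun i => i.elim0
    rw [h2]
    have h3 : (List.ofFn (fun i : Fin 0 => (i.elim0 : ℕ))) = [] := by simp
    rw [h3] at h1
    have h4 : ‖∑ n ∈ Ioc a b, ee (F n)‖ ≤ B (fun i => i.elim0) := h1
    have h5 : 0 ≤ M ^ (2 ^ 0) / (H : ℝ) := by positivity
    simp only [pow_zero, pow_one, one_mul, Nat.sub_self, div_one] at h5 ⊢
    linarith
  | succ k ih =>
    obtain ⟨C, hC, ih⟩ := ih
    set m : ℕ := 2 ^ k with hm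
    have hm1 : 1 ≤ m := Nat.one_le_two_pow
    refine ⟨4 ^ m * 2 ^ (m - 1) * (1 + C), by positivity,
      fun F a b H M B hab hM hH hHM hB hyp => ?_⟩
    have hH0 : (0 : ℝ) < H := by exact_mod_cast hH
    have hH1 : (1 : ℝ) ≤ H := by exact_mod_cast hH
    have hM0 : 0 < M := by linarith
    set z : ℕ → ℂ := fun n => ee (F n) with hz
    have hz1 : ∀ n, ‖z n‖ = 1 := fun n => wv_ee_norm _
    have hb := wv_basic z hz1 a b H M hab hM hH hHM
    have hstep : ∀ g ∈ Icc 1 H, wvG z a b g ^ m ≤ C * (M ^ m / H + M ^ (m - 1) / (H : ℝ) ^ k *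
        ∑ h ∈ Fintype.piFinset (fun _ : Fin k => Icc 1 H), B (Fin.cons g h)) := by
      intro g hg
      rw [mem_Icc] at hg
      have hb' : a ≤ max a (b - g) := le_max_left _ _
      have hbb : max a (b - g) ≤ b := by omega
      have h1 := ih (fun n => F (n + g) - F n) a (max a (b - g)) H M
        (fun h => B (Fin.cons g h)) hb' (by
          have : ((max a (b - g) : ℕ) : ℝ) ≤ b := by exact_mod_cast hbb
          linarith) hH hHM (fun h => hB _) (fun h hh a' b' ha' hab' hb'' => by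
          have h2 := hyp (Fin.cons g h) (fun i => by
            refine Fin.cases ?_ (fun i => ?_) i
            · exact hg
            · exact hh i) a' b' ha' hab' (hb''.trans hbb)
          refine le_trans (le_of_eq ?_) h2
          congr 1
          apply sum_congr rfl
          intro n _
          rw [wv_dl, List.ofFn_succ]
          rfl)
      refine le_trans (le_of_eq ?_) h1
      congr 1
      unfold wvG
      congr 1
      have h3 : Ioc a (max a (b - g)) = Ioc a (b - g) := by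
        ext n
        simp only [mem_Ioc]
        omega
      rw [h3]
      apply sum_congr rfl
      intro n _
      rw [hz]
      exact (wv_ee_sub _ _).symm
    have hJ : (∑ g ∈ Icc 1 H, wvG z a b g) ^ m ≤
        (H : ℝ) ^ (m - 1) * ∑ g ∈ Icc 1 H, wvG z a b g ^ m := by
      have h1 := pow_sum_div_card_le_sum_pow (s := Icc 1 H) (f := wvG z a b)
        (fun i _ => wvG_nonneg z a b i) (m - 1)
      rw [Nat.sub_add_cancel hm1, Nat.card_Icc, Nat.add_sub_cancel,
        div_le_iff₀ (by positivity)] at h1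
      linarith
    have hadd : (M + ∑ g ∈ Icc 1 H, wvG z a b g) ^ m ≤
        2 ^ (m - 1) * (M ^ m + (∑ g ∈ Icc 1 H, wvG z a b g) ^ m) :=
      add_pow_le hM0.le (sum_nonneg fun _ _ => wvG_nonneg _ _ _ _) m
    set SB : ℝ := ∑ h ∈ Fintype.piFinset (fun _ : Fin (k + 1) => Icc 1 H), B h with hSB
    have hsum : ∑ g ∈ Icc 1 H, wvG z a b g ^ m ≤
        C * (M ^ m + M ^ (m - 1) / (H : ℝ) ^ k * SB) := by
      refine (sum_le_sum hstep).trans (le_of_eq ?_)
      rw [← mul_sum, sum_add_distrib, sum_const, Nat.card_Icc, Nat.add_sub_cancel, nsmul_eq_mul,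
        ← mul_sum, ← wv_pi (Icc 1 H) B, mul_div_cancel₀ _ hH0.ne']
    have hSB0 : 0 ≤ SB := sum_nonneg fun h _ => hB h
    have hall : (M + ∑ g ∈ Icc 1 H, wvG z a b g) ^ m ≤
        2 ^ (m - 1) * (M ^ m + (H : ℝ) ^ (m - 1) * (C * (M ^ m + M ^ (m - 1) / (H : ℝ) ^ k * SB))) := by
      refine hadd.trans ?_
      gcongr
      refine hJ.trans ?_
      gcongr
    have hpow : (2 : ℕ) ^ (k + 1) = 2 * m := by rw [hm, pow_succ]; ring
    rw [hpow, pow_mul]
    have hfin : (‖∑ n ∈ Ioc a b, ee (F n)‖ ^ 2) ^ m ≤ (4 * M / H) ^ m * (2 ^ (m - 1) * (M ^ m +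
        (H : ℝ) ^ (m - 1) * (C * (M ^ m + M ^ (m - 1) / (H : ℝ) ^ k * SB)))) := by
      calc (‖∑ n ∈ Ioc a b, ee (F n)‖ ^ 2) ^ m
          ≤ (4 * M / H * (M + ∑ h ∈ Icc 1 H, wvG z a b h)) ^ m := by gcongr
        _ = (4 * M / H) ^ m * (M + ∑ h ∈ Icc 1 H, wvG z a b h) ^ m := mul_pow _ _ _
        _ ≤ _ := by gcongr
    refine hfin.trans ?_
    obtain ⟨r, hr⟩ : ∃ r, m = r + 1 := ⟨m - 1, by omega⟩
    rw [hr, Nat.add_sub_cancel, show 2 * (r + 1) - 1 = 2 * r + 1 by omega,
      show 2 * (r + 1) = 2 * r + 2 by ring]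
    have e1 : (4 * M / (H : ℝ)) ^ (r + 1) * (2 ^ r * (M ^ (r + 1) +
        (H : ℝ) ^ r * (C * (M ^ (r + 1) + M ^ r / (H : ℝ) ^ k * SB)))) =
        4 ^ (r + 1) * 2 ^ r * (M ^ (2 * r + 2) / (H : ℝ) ^ (r + 1) +
          C * (M ^ (2 * r + 2) / H + M ^ (2 * r + 1) / (H : ℝ) ^ (k + 1) * SB)) := by
      rw [div_pow, mul_pow]
      field_simp
      ring
    rw [e1]
    have e2 : M ^ (2 * r + 2) / (H : ℝ) ^ (r + 1) ≤ M ^ (2 * r + 2) / H := by
      apply div_le_div_of_nonneg_left (by positivity) hH0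
      exact le_self_pow₀ hH1 (by omega)
    have e3 : 0 ≤ M ^ (2 * r + 1) / (H : ℝ) ^ (k + 1) * SB := by positivity
    have e4 : M ^ (2 * r + 2) / (H : ℝ) ^ (r + 1) +
          C * (M ^ (2 * r + 2) / H + M ^ (2 * r + 1) / (H : ℝ) ^ (k + 1) * SB) ≤
        (1 + C) * (M ^ (2 * r + 2) / H + M ^ (2 * r + 1) / (H : ℝ) ^ (k + 1) * SB) := by
      linarith
    calc _ ≤ 4 ^ (r + 1) * 2 ^ r * ((1 + C) * (M ^ (2 * r + 2) / H +
          M ^ (2 * r + 1) / (H : ℝ) ^ (k + 1) * SB)) := by gcongr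
      _ = _ := by ring

end Pool.Agent.Helper40.MR
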